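import Mathlib

/-!
# No syndetic set is a weak interpolation set of order 2 for totally transitive systems

Given a syndetic set `S` with gap bound `L`, put `l = L + 2` and let `g : ℕ → {0,1}` be periodic with
period `k = l 2 ^ l` such that every word of length `l` occurs in `g`. The restriction of `g` to `S` is not
interpolated: if `F (T^n x) = g n` on `S`, choose a word `v` with `|v j - F (T^j x)| ≥ 1/2` for all `j < l`
and a position `r` of `v` in `g`. Total transitivity makes `{T^(r + k n) x}` dense, so some `T^(r + k n) x`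
is very close to `x`, and `S` meets the window following `r + k n`: a contradiction.
-/

set_option autoImplicit false

open Set Function

universe u

namespace Pool.Agent.Results.MP_816335_an.NoSyndetic

/-- `T` is topologically transitive: for all nonempty open `U`, `V` there is `n ≥ 1` with
`U ∩ T^(-n) V` nonempty. -/
def TopTransitive {X : Type u} [TopologicalSpace X] (T : X → X) : Prop :=
  ∀ U V : Set X, IsOpen U → U.Nonempty → IsOpen V → V.Nonempty →
    ∃ n : ℕ, 1 ≤ n ∧ (U ∩ T^[n] ⁻¹' V).Nonempty

/-- `T` is totally transitive: `T^m` is topologically transitive for every `m ≥ 1`. -/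
def TotallyTransitive {X : Type u} [TopologicalSpace X] (T : X → X) : Prop :=
  ∀ m : ℕ, 1 ≤ m → TopTransitive (T^[m])

/-- `x` is a transitive point of `T`: its forward orbit is dense. -/
def IsTransitivePoint {X : Type u} [TopologicalSpace X] (T : X → X) (x : X) : Prop :=
  Dense (Set.range fun n : ℕ => T^[n] x)

/-- `S ⊆ {1, 2, 3, …}` is syndetic: for some `L` every interval `{n, …, n + L}` with `n ≥ 1` meets `S`. -/
def Syndetic (S : Set ℕ) : Prop :=
  (∀ n ∈ S, 1 ≤ n) ∧ ∃ L : ℕ, ∀ n : ℕ, 1 ≤ n → ∃ m ∈ S, n ≤ m ∧ m ≤ n + L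

/-- `S` is a weak interpolation set of order `k` for the class of totally transitive systems: every
`f : S → {0, …, k-1}` has the form `f n = F (T^n x)` for `n ∈ S`, where `(X, T)` is a totally transitive
system on a compact metric space, `x` is a transitive point and `F : X → ℂ` is continuous. -/
def IsWeakInterpolationSet (k : ℕ) (S : Set ℕ) : Prop :=
  ∀ f : S → Fin k, ∃ (X : Type u) (_ : MetricSpace X) (_ : CompactSpace X) (T : X → X) (x : X)
    (F : X → ℂ), Continuous T ∧ TotallyTransitive T ∧ IsTransitivePoint T x ∧ Continuous F ∧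
      ∀ n : S, F (T^[(n : ℕ)] x) = (((f n : Fin k) : ℕ) : ℂ)

/-- For a totally transitive system with transitive point `x`, every arithmetic progression of times
gives a dense part of the orbit. -/
lemma dense_progression {X : Type u} [MetricSpace X] [CompactSpace X] (T : X → X)
    (hT : Continuous T) (htt : TotallyTransitive T) (x : X) (hx : IsTransitivePoint T x)
    (k : ℕ) (hk : 1 ≤ k) (r : ℕ) : Dense (Set.range fun n : ℕ => T^[r + k * n] x) := by
  classical
  set Y : ℕ → Set X := fun i => closure (Set.range fun n : ℕ => T^[i + k * n] x) with hY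
  have hYc : ∀ i, IsClosed (Y i) := fun i => isClosed_closure
  have hmap : ∀ i, ∀ y ∈ Y i, T^[k] y ∈ Y i := by
    intro i y hy
    have h1 : MapsTo (T^[k]) (Set.range fun n : ℕ => T^[i + k * n] x)
        (Set.range fun n : ℕ => T^[i + k * n] x) := by
      rintro _ ⟨n, rfl⟩
      refine ⟨n + 1, ?_⟩
      simp only
      rw [← Function.iterate_add_apply]
      congr 1
      ring_nf
    exact h1.closure (hT.iterate k) hy
  have hmap1 : ∀ i, ∀ y ∈ Y i, T y ∈ Y (i + 1) := by
    intro i y hy
    have h1 : MapsTo T (Set.range fun n : ℕ => T^[i + k * n] x)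
        (Set.range fun n : ℕ => T^[i + 1 + k * n] x) := by
      rintro _ ⟨n, rfl⟩
      refine ⟨n, ?_⟩
      simp only
      rw [← Function.iterate_succ_apply' T]
      congr 1
      rw [Nat.succ_eq_add_one]
      ring_nf
    exact h1.closure hT hy
  have hmono : ∀ i, Y (i + k) ⊆ Y i := by
    intro i
    apply closure_mono
    rintro _ ⟨n, rfl⟩
    refine ⟨n + 1, ?_⟩
    simp only
    congr 1
    ring_nf
  have hmono' : ∀ i j, Y (i + k * j) ⊆ Y i := by
    intro i j
    induction j with
    | zero => simp
    | succ j ih =>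
      have : i + k * (j + 1) = (i + k * j) + k := by ring
      rw [this]
      exact (hmono _).trans ih
  -- union is everything
  have hunion : (⋃ i ∈ Finset.range k, Y i) = univ := by
    have hcl : IsClosed (⋃ i ∈ Finset.range k, Y i) :=
      Set.Finite.isClosed_biUnion (Finset.range k).finite_toSet (fun i _ => hYc i)
    have hsub : (Set.range fun n : ℕ => T^[n] x) ⊆ ⋃ i ∈ Finset.range k, Y i := by
      rintro _ ⟨n, rfl⟩
      simp only [mem_iUnion]
      refine ⟨n % k, Finset.mem_range.2 (Nat.mod_lt _ hk), subset_closure ⟨n / k, ?_⟩⟩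
      simp only
      rw [Nat.mod_add_div]
    exact eq_univ_of_univ_subset (hx.closure_eq ▸ closure_minimal hsub hcl)
  -- some `Y i` has nonempty interior
  have hint : ∃ i, (interior (Y i)).Nonempty := by
    by_contra hcon
    push Not at hcon
    have hnd : ∀ i, Dense (Y i)ᶜ := fun i => interior_eq_empty_iff_dense_compl.1 (hcon i)
    have hd : ∀ s : Finset ℕ, Dense (⋃ i ∈ s, Y i)ᶜ := by
      intro s
      induction s using Finset.induction_on with
      | empty => simp
      | insert a s _ ih =>
        rw [Finset.set_biUnion_insert, compl_union]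
        exact (hnd a).inter_of_isOpen_left ih (hYc a).isOpen_compl
    have := hd (Finset.range k)
    rw [hunion, compl_univ] at this
    have hne : Nonempty X := ⟨x⟩
    exact Set.not_nonempty_empty this.nonempty
  obtain ⟨i, hi⟩ := hint
  have hYi : Y i = univ := by
    have hdense : Dense (Y i) := by
      rw [dense_iff_inter_open]
      intro V hV hVne
      obtain ⟨n, hn, y, hyU, hyV⟩ := htt k hk _ V isOpen_interior hi hV hVne
      refine ⟨(T^[k])^[n] y, hyV, ?_⟩
      have : ∀ m : ℕ, (T^[k])^[m] y ∈ Y i := by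
        intro m
        induction m with
        | zero => exact interior_subset hyU
        | succ m ih =>
          rw [Function.iterate_succ_apply']
          exact hmap i _ ih
      exact this n
    rw [← (hYc i).closure_eq]
    exact hdense.closure_eq
  have hsurj : Surjective T := by
    have hcl : IsClosed (Set.range T) := (isCompact_range hT).isClosed
    have hdr : Dense (Set.range T) := by
      rw [dense_iff_inter_open]
      intro V hV hVne
      obtain ⟨n, hn, y, hyU, hyV⟩ := htt 1 le_rfl univ V isOpen_univ ⟨x, trivial⟩ hV hVne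
      rw [Function.iterate_one] at hyV
      obtain ⟨m, rfl⟩ : ∃ m, n = m + 1 := ⟨n - 1, by omega⟩
      refine ⟨T^[m + 1] y, hyV, ⟨T^[m] y, ?_⟩⟩
      rw [Function.iterate_succ_apply']
    rw [← Set.range_eq_univ, ← hcl.closure_eq]
    exact hdr.closure_eq
  have hall : ∀ j, Y (i + j) = univ := by
    intro j
    induction j with
    | zero => exact hYi
    | succ j ih =>
      apply eq_univ_of_forall
      intro y
      obtain ⟨z, rfl⟩ := hsurj y
      exact hmap1 (i + j) z (by rw [ih]; trivial)
  have hr : Y r = univ := by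
    apply eq_univ_of_univ_subset
    have h1 : Y (r + k * i) = univ := by
      have : ∃ j, r + k * i = i + j := ⟨r + k * i - i, by
        have : i ≤ k * i := Nat.le_mul_of_pos_left i hk
        omega⟩
      obtain ⟨j, hj⟩ := this
      rw [hj]; exact hall j
    rw [← h1]
    exact hmono' r i
  exact dense_iff_closure_eq.2 hr

theorem result : ¬ ∃ S : Set ℕ, Syndetic S ∧ IsWeakInterpolationSet.{u} 2 S := by
  classical
  rintro ⟨S, ⟨-, L, hL⟩, hW⟩
  set l : ℕ := L + 2 with hl
  set k : ℕ := 2 ^ l * l with hk
  have hkpos : 1 ≤ k := Nat.succ_le_of_lt (by positivity)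
  have hlpos : 0 < l := by omega
  -- the periodic sequence
  set g : ℕ → Fin 2 := fun n => if Nat.testBit ((n / l) % 2 ^ l) (n % l) then 1 else 0 with hg
  have hgper : ∀ n j : ℕ, g (n + k * j) = g n := by
    intro n j
    have h1 : (n + k * j) / l = n / l + 2 ^ l * j := by
      rw [hk, show n + 2 ^ l * l * j = n + l * (2 ^ l * j) by ring, Nat.add_mul_div_left _ _ hlpos]
    have h2 : (n + k * j) % l = n % l := by
      rw [hk, show n + 2 ^ l * l * j = n + l * (2 ^ l * j) by ring, Nat.add_mul_mod_self_left]
    simp only [hg, h1, h2, Nat.add_mul_mod_self_left]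
  obtain ⟨X, _, _, T, x, F, hT, htt, hx, hF, hint⟩ := hW (fun n => g n)
  -- the word `v`
  have hword : ∀ m : ℕ, ∀ P : ℕ → Prop, ∃ a < 2 ^ m, ∀ j < m, (Nat.testBit a j = true ↔ P j) := by
    intro m P
    induction m with
    | zero => exact ⟨0, by norm_num, fun j hj => absurd hj (Nat.not_lt_zero j)⟩
    | succ m ih =>
      obtain ⟨a, ha, hb⟩ := ih
      by_cases hP : P m
      · refine ⟨2 ^ m + a, by rw [pow_succ]; omega, fun j hj => ?_⟩
        rcases Nat.lt_succ_iff_lt_or_eq.1 hj with h | h
        · rw [Nat.testBit_two_pow_add_gt h]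
          exact hb j h
        · subst h
          rw [Nat.testBit_two_pow_add_eq, Nat.testBit_eq_false_of_lt ha]
          simp [hP]
      · refine ⟨a, by rw [pow_succ]; omega, fun j hj => ?_⟩
        rcases Nat.lt_succ_iff_lt_or_eq.1 hj with h | h
        · exact hb j h
        · subst h
          rw [Nat.testBit_eq_false_of_lt ha]
          simp [hP]
  obtain ⟨a, ha, hbit⟩ := hword l (fun j => (1 / 2 : ℝ) ≤ ‖(1 : ℂ) - F (T^[j] x)‖)
  set r : ℕ := l * a with hr
  have hgr : ∀ j < l, g (r + j) = if (1 / 2 : ℝ) ≤ ‖(1 : ℂ) - F (T^[j] x)‖ then 1 else 0 := by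
    intro j hj
    have h1 : (r + j) / l = a := by
      rw [hr, Nat.mul_add_div hlpos, Nat.div_eq_of_lt hj, add_zero]
    have h2 : (r + j) % l = j := by
      rw [hr, Nat.mul_add_mod, Nat.mod_eq_of_lt hj]
    simp only [hg, h1, h2, Nat.mod_eq_of_lt ha]
    by_cases hc : (1 / 2 : ℝ) ≤ ‖(1 : ℂ) - F (T^[j] x)‖
    · rw [if_pos hc, if_pos ((hbit j hj).2 hc)]
    · rw [if_neg hc, if_neg (fun h => hc ((hbit j hj).1 h))]
  have hfar : ∀ j < l, (1 / 2 : ℝ) ≤ ‖(((g (r + j) : Fin 2) : ℕ) : ℂ) - F (T^[j] x)‖ := by
    intro j hj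
    rw [hgr j hj]
    by_cases hc : (1 / 2 : ℝ) ≤ ‖(1 : ℂ) - F (T^[j] x)‖
    · rw [if_pos hc]; simpa using hc
    · rw [if_neg hc]
      push Not at hc
      have h1 : ‖(1 : ℂ)‖ ≤ ‖(1 : ℂ) - F (T^[j] x)‖ + ‖F (T^[j] x)‖ := by
        have := norm_add_le ((1 : ℂ) - F (T^[j] x)) (F (T^[j] x))
        rwa [sub_add_cancel] at this
      rw [norm_one] at h1
      simp only [Fin.val_zero, Nat.cast_zero, zero_sub, norm_neg]
      linarith
  -- the neighbourhood of `x`
  set W : Set X := ⋂ j ∈ Finset.range l, {y : X | ‖F (T^[j] y) - F (T^[j] x)‖ < 1 / 4} with hW'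
  have hWopen : IsOpen W := by
    apply isOpen_biInter_finset
    intro j _
    exact isOpen_lt ((hF.comp (hT.iterate j)).sub continuous_const).norm continuous_const
  have hxW : x ∈ W := by
    simp only [hW', mem_iInter, mem_ofPred_eq, sub_self, norm_zero]
    intro j _
    norm_num
  obtain ⟨y, hyW, n, rfl⟩ :=
    (dense_progression T hT htt x hx k hkpos r).inter_open_nonempty W hWopen ⟨x, hxW⟩
  simp only [hW', mem_iInter, mem_ofPred_eq] at hyW
  obtain ⟨m, hmS, hm1, hm2⟩ := hL (r + k * n + 1) (by omega)
  obtain ⟨j, hj⟩ : ∃ j, m = j + (r + k * n) := ⟨m - (r + k * n), by omega⟩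
  have hjl : j < l := by omega
  have h1 := hyW j (Finset.mem_range.2 hjl)
  have h2 := hint ⟨m, hmS⟩
  simp only at h2
  rw [← Function.iterate_add_apply, ← hj, h2] at h1
  have h3 : g m = g (r + j) := by
    rw [hj, show j + (r + k * n) = (r + j) + k * n by ring, hgper]
  rw [h3] at h1
  have h4 := hfar j hjl
  linarith

end Pool.Agent.Results.MP_816335_an.NoSyndetic
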