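import Mathlib

set_option autoImplicit false

/-!
# Syndetic weak interpolation sets of order `2` for totally transitive systems do not exist
-/

namespace Pool.Agent.Results.MP_816335_an.NoSyndeticOrderTwo

open Filter Topology

universe u

/-- `(X, T)` is topologically transitive: for all nonempty open `U, V` there is `n ≥ 1` with
`U ∩ T^{-n} V ≠ ∅`. -/
def TopTransitive {X : Type u} [TopologicalSpace X] (T : X → X) : Prop :=
  ∀ U V : Set X, IsOpen U → IsOpen V → U.Nonempty → V.Nonempty → ∃ n : ℕ, 1 ≤ n ∧ (U ∩ T^[n] ⁻¹' V).Nonempty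

/-- `(X, T)` is totally transitive: `(X, T^m)` is topologically transitive for every `m ≥ 1`. -/
def TotallyTransitive {X : Type u} [TopologicalSpace X] (T : X → X) : Prop :=
  ∀ m : ℕ, 1 ≤ m → TopTransitive (T^[m])

/-- `x` is a transitive point: its forward orbit is dense. -/
def TransitivePoint {X : Type u} [TopologicalSpace X] (T : X → X) (x : X) : Prop :=
  Dense (Set.range fun n : ℕ => T^[n] x)

/-- `S` is syndetic: for some `L` every interval `{n, n + 1, …, n + L}`, `n ≥ 1`, meets `S`. -/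
def Syndetic (S : Set ℕ) : Prop :=
  ∃ L : ℕ, ∀ n : ℕ, 1 ≤ n → ∃ s ∈ S, n ≤ s ∧ s ≤ n + L

/-- `S` is a weak interpolation set of order `k` for the class of totally transitive systems: for every
`f : S → {0, …, k - 1}` there are a totally transitive system `(X, T)` (`X` compact metric, `T` continuous),
a transitive point `x` and a continuous `F : X → ℂ` with `F (T^n x) = f n` for all `n ∈ S`. -/
def WeakInterpolation (S : Set ℕ) (k : ℕ) : Prop :=
  ∀ f : S → Fin k, ∃ (X : Type u) (_ : MetricSpace X) (_ : CompactSpace X) (T : X → X) (x : X) (F : X → ℂ),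
    Continuous T ∧ TotallyTransitive T ∧ TransitivePoint T x ∧ Continuous F ∧
      ∀ n : S, F (T^[(n : ℕ)] x) = ((f n : ℕ) : ℂ)

section Aux

variable {X : Type u} [MetricSpace X] [CompactSpace X] {T : X → X} {x : X}

theorem surj (hT : Continuous T) (h : TopTransitive T) : Function.Surjective T := by
  have h1 : Dense (Set.range T) := by
    intro y
    rw [mem_closure_iff]
    intro V hV hy
    obtain ⟨n, hn, z, _, hz⟩ := h V V hV hV ⟨y, hy⟩ ⟨y, hy⟩
    obtain ⟨m, rfl⟩ : ∃ m, n = m + 1 := ⟨n - 1, by omega⟩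
    rw [Set.mem_preimage, Function.iterate_succ_apply'] at hz
    exact ⟨_, hz, ⟨_, rfl⟩⟩
  have h2 : IsClosed (Set.range T) := (isCompact_range hT).isClosed
  rw [← Set.range_eq_univ, ← h2.closure_eq]
  exact h1.closure_eq

/-- In a totally transitive system the orbit of a transitive point under `T^k` is dense. -/
theorem dense_pow (hT : Continuous T) (hTT : TotallyTransitive T) (hx : TransitivePoint T x) (k : ℕ) (hk : 1 ≤ k) :
    Dense (Set.range fun n : ℕ => T^[k * n] x) := by
  set C : Fin k → Set X := fun j => closure (Set.range fun n : ℕ => T^[k * n + j] x) with hC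
  have : Nonempty X := ⟨x⟩
  have : NeZero k := ⟨by omega⟩
  have hcover : ⋃ j, C j = Set.univ := by
    have h1 : IsClosed (⋃ j, C j) := isClosed_iUnion_of_finite fun j => isClosed_closure
    have h2 : Set.range (fun n : ℕ => T^[n] x) ⊆ ⋃ j, C j := by
      rintro _ ⟨n, rfl⟩
      rw [Set.mem_iUnion]
      refine ⟨⟨n % k, Nat.mod_lt _ (by omega)⟩, subset_closure ⟨n / k, ?_⟩⟩
      simp only
      rw [Nat.div_add_mod]
    rw [← h1.closure_eq]
    exact (hx.mono h2).closure_eq
  obtain ⟨j, hj⟩ := nonempty_interior_of_iUnion_of_closed (fun j => isClosed_closure) hcover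
  have hinv : ∀ (n : ℕ), T^[k * n] '' C j ⊆ C j := by
    intro n
    refine (image_closure_subset_closure_image (hT.iterate _)).trans (closure_mono ?_)
    rintro _ ⟨_, ⟨m, rfl⟩, rfl⟩
    refine ⟨n + m, ?_⟩
    simp only
    rw [← Function.iterate_add_apply]
    congr 1
    ring
  have hCj : C j = Set.univ := by
    have h1 : Dense (C j) := by
      intro y
      rw [mem_closure_iff]
      intro V hV hy
      obtain ⟨n, hn, z, hz1, hz2⟩ := hTT k hk (interior (C j)) V isOpen_interior hV hj ⟨y, hy⟩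
      refine ⟨(T^[k])^[n] z, hz2, ?_⟩
      rw [← Function.iterate_mul]
      exact hinv n ⟨z, interior_subset hz1, rfl⟩
    have h9 : IsClosed (C j) := isClosed_closure
    rw [← h9.closure_eq]
    exact h1.closure_eq
  have hsurj : Function.Surjective (T^[k - j]) := by
    have h1 := surj hT (by
      have := hTT 1 le_rfl
      rwa [Function.iterate_one] at this)
    exact h1.iterate _
  have h0 : T^[k - j] '' C j ⊆ closure (Set.range fun n : ℕ => T^[k * n] x) := by
    refine (image_closure_subset_closure_image (hT.iterate _)).trans (closure_mono ?_)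
    rintro _ ⟨_, ⟨m, rfl⟩, rfl⟩
    refine ⟨m + 1, ?_⟩
    simp only
    rw [← Function.iterate_add_apply]
    congr 1
    have := j.2
    have h2 : (k - (j : ℕ)) + (k * m + j) = k * m + ((k - j) + j) := by ring
    rw [h2, Nat.sub_add_cancel this.le]
    ring
  rw [hCj, Set.image_univ, hsurj.range_eq] at h0
  intro y
  exact h0 (Set.mem_univ y)

end Aux

/-- a periodic sequence containing all words of length `L + 1` -/
noncomputable def gg (L : ℕ) (n : ℕ) : Fin 2 :=
  ((Fintype.equivFin (Fin (L + 1) → Fin 2)).symm ⟨(n / (L + 1)) % Fintype.card (Fin (L + 1) → Fin 2),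
    Nat.mod_lt _ Fintype.card_pos⟩) ⟨n % (L + 1), Nat.mod_lt _ (Nat.succ_pos L)⟩

/-- its period -/
def per (L : ℕ) : ℕ := (L + 1) * Fintype.card (Fin (L + 1) → Fin 2)

theorem per_pos (L : ℕ) : 1 ≤ per L := Nat.mul_pos (Nat.succ_pos L) Fintype.card_pos

theorem gg_word (L : ℕ) (w : Fin (L + 1) → Fin 2) : ∃ p, p ≤ per L ∧ ∀ (m : ℕ) (i : Fin (L + 1)),
    gg L (per L * m + p + i) = w i := by
  set M := Fintype.card (Fin (L + 1) → Fin 2) with hM
  set e := Fintype.equivFin (Fin (L + 1) → Fin 2) with he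
  refine ⟨(L + 1) * (e w : ℕ), ?_, fun m i => ?_⟩
  · exact Nat.mul_le_mul le_rfl (e w).2.le
  · have h1 : per L * m + (L + 1) * (e w : ℕ) + i = i + (L + 1) * (M * m + (e w : ℕ)) := by
      rw [per]; ring
    have h2 : (per L * m + (L + 1) * (e w : ℕ) + i) / (L + 1) = M * m + (e w : ℕ) := by
      rw [h1, Nat.add_mul_div_left _ _ (Nat.succ_pos L), Nat.div_eq_of_lt i.2, zero_add]
    have h3 : (per L * m + (L + 1) * (e w : ℕ) + i) % (L + 1) = i := by
      rw [h1, Nat.add_mul_mod_self_left, Nat.mod_eq_of_lt i.2]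
    have h4 : (M * m + (e w : ℕ)) % M = (e w : ℕ) := by
      rw [Nat.mul_add_mod_self_left, Nat.mod_eq_of_lt (e w).2]
    have h5 : (⟨((per L * m + (L + 1) * (e w : ℕ) + i) / (L + 1)) % M, Nat.mod_lt _ Fintype.card_pos⟩ : Fin M)
        = e w := Fin.ext (by simp only; rw [h2, h4])
    have h6 : (⟨(per L * m + (L + 1) * (e w : ℕ) + i) % (L + 1), Nat.mod_lt _ (Nat.succ_pos L)⟩ : Fin (L + 1)) = i :=
      Fin.ext h3
    rw [gg]
    change e.symm (⟨((per L * m + (L + 1) * (e w : ℕ) + i) / (L + 1)) % M, Nat.mod_lt _ Fintype.card_pos⟩ : Fin M)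
      (⟨(per L * m + (L + 1) * (e w : ℕ) + i) % (L + 1), Nat.mod_lt _ (Nat.succ_pos L)⟩ : Fin (L + 1)) = w i
    rw [h5, h6, Equiv.symm_apply_apply]

/-- **No syndetic set is a weak interpolation set of order `2` for the class of totally transitive systems.** -/
theorem result (S : Set ℕ) (hS : Syndetic S) : ¬ WeakInterpolation.{u} S 2 := by
  intro hW
  obtain ⟨L, hL⟩ := hS
  set k := per L with hk
  have hk1 : 1 ≤ k := per_pos L
  obtain ⟨X, _, _, T, x, F, hT, hTT, hx, hF, hval⟩ := hW fun n => gg L n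
  have hdense := dense_pow hT hTT hx k hk1
  -- the word which differs from the values on the window `[2k, 2k + L]`
  set w : Fin (L + 1) → Fin 2 := fun i => if F (T^[2 * k + (i : ℕ)] x) = 0 then 1 else 0 with hw
  have hne : ∀ i : Fin (L + 1), F (T^[2 * k + (i : ℕ)] x) ≠ ((w i : ℕ) : ℂ) := by
    intro i
    simp only [hw]
    by_cases h : F (T^[2 * k + (i : ℕ)] x) = 0
    · rw [if_pos h, h]; simp
    · rw [if_neg h]; simpa using h
  obtain ⟨p, hp, hgw⟩ := gg_word L w
  -- the shift
  set q := k + p with hq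
  obtain ⟨r, hr⟩ : ∃ r, 2 * k = q + r := ⟨k - p, by omega⟩
  -- continuity at `T^r x`
  have hopen : ∀ i : Fin (L + 1), {y : X | F (T^[q + (i : ℕ)] y) ≠ ((w i : ℕ) : ℂ)} ∈ 𝓝 (T^[r] x) := by
    intro i
    have hc : Continuous fun y : X => F (T^[q + (i : ℕ)] y) := hF.comp (hT.iterate _)
    refine (isOpen_ne_fun hc continuous_const).mem_nhds ?_
    change F (T^[q + (i : ℕ)] (T^[r] x)) ≠ _
    rw [← Function.iterate_add_apply]
    have : q + (i : ℕ) + r = 2 * k + i := by omega
    rw [this]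
    exact hne i
  have hall : (⋂ i : Fin (L + 1), {y : X | F (T^[q + (i : ℕ)] y) ≠ ((w i : ℕ) : ℂ)}) ∈ 𝓝 (T^[r] x) :=
    Filter.iInter_mem.mpr hopen
  obtain ⟨y, hy, ⟨n, rfl⟩⟩ := mem_closure_iff_nhds.mp (hdense (T^[r] x)) _ hall
  obtain ⟨s, hs, hs1, hs2⟩ := hL (k * n + q) (by omega)
  obtain ⟨i, hi⟩ : ∃ i : Fin (L + 1), s = k * n + q + i := ⟨⟨s - (k * n + q), by omega⟩, by simp only; omega⟩
  have h1 := Set.mem_iInter.mp hy i
  apply h1
  change F (T^[q + (i : ℕ)] (T^[k * n] x)) = _
  rw [← Function.iterate_add_apply]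
  have h2 : q + (i : ℕ) + k * n = s := by omega
  rw [h2, hval ⟨s, hs⟩]
  simp only
  have h3 : s = per L * (n + 1) + p + i := by
    rw [hi, hq, ← hk]; ring
  rw [h3, hgw (n + 1) i]

end Pool.Agent.Results.MP_816335_an.NoSyndeticOrderTwo
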